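import Pool.Agent.KS.Final

/-!
# Pointwise sign of the scalar curvature in a Kaehler class: both statements fail

The complex manifolds are Mathlib manifolds (`IsManifold 𝓘(ℂ, Cn 2) ω M`, compact, connected,
Hausdorff); `KahlerMetric`, `SameClass`, `scal`, `IsVolume` are defined in `Pool.Agent.KS.Defs`.
The surface is the projective line bundle `P(O + O(-1))` over the Fermat quintic curve (genus 6).
-/

open MeasureTheory Pool.Agent.KS
open scoped Manifold ContDiff

namespace Pool.Agent.Results.MP_8e561c_gt.ScalarSignFails

/-- **Disproof of (+) and of (-).** There is a compact connected complex surface with a Kaehler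
metric `g` of positive total scalar curvature such that every Kaehler metric in the class of `g`
has negative scalar curvature somewhere; and there is a compact connected complex surface with a
Kaehler metric `g` of negative total scalar curvature such that every Kaehler metric in the class
of `g` has positive scalar curvature somewhere. -/
theorem result :
    (∃ (M : Type) (_ : TopologicalSpace M) (_ : T2Space M) (_ : CompactSpace M)
      (_ : ConnectedSpace M) (_ : MeasurableSpace M) (_ : BorelSpace M)
      (_ : ChartedSpace (Cn 2) M) (_ : IsManifold 𝓘(ℂ, Cn 2) ω M)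
      (g : KahlerMetric 2 M) (μ : Measure M), IsVolume g μ ∧ 0 < ∫ p, scal g p ∂μ ∧
        ∀ g' : KahlerMetric 2 M, SameClass g g' → ∃ p, scal g' p < 0) ∧
    (∃ (M : Type) (_ : TopologicalSpace M) (_ : T2Space M) (_ : CompactSpace M)
      (_ : ConnectedSpace M) (_ : MeasurableSpace M) (_ : BorelSpace M)
      (_ : ChartedSpace (Cn 2) M) (_ : IsManifold 𝓘(ℂ, Cn 2) ω M)
      (g : KahlerMetric 2 M) (μ : Measure M), IsVolume g μ ∧ ∫ p, scal g p ∂μ < 0 ∧
        ∀ g' : KahlerMetric 2 M, SameClass g g' → ∃ p, 0 < scal g' p) := by
  constructor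
  · obtain ⟨hφ, μ, hμ, htot⟩ := exists_total (m := 2) (c := 3) (by norm_num) (by norm_num)
    refine ⟨FM, inferInstance, inferInstance, inferInstance, inferInstance, inferInstance,
      inferInstance, inferInstance, inferInstance, CSurf.toMet FM_atl hφ, μ, hμ, ?_, ?_⟩
    · rw [htot]
      have := Real.pi_pos
      positivity
    · intro g' hc
      obtain ⟨h, hh, hK, hs⟩ := CSurf.exists_pot FM_atl FM_all hφ hc
      obtain ⟨x, hx⟩ := plus_FM hh hK
      refine ⟨x, ?_⟩
      rw [hs x]
      linarith
  · obtain ⟨hφ, μ, hμ, htot⟩ := exists_total (m := 1) (c := 3) (by norm_num) (by norm_num)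
    refine ⟨FM, inferInstance, inferInstance, inferInstance, inferInstance, inferInstance,
      inferInstance, inferInstance, inferInstance, CSurf.toMet FM_atl hφ, μ, hμ, ?_, ?_⟩
    · rw [htot]
      have := Real.pi_pos
      have h2 : 0 < 40 * Real.pi ^ 2 := by positivity
      linarith
    · intro g' hc
      obtain ⟨h, hh, hK, hs⟩ := CSurf.exists_pot FM_atl FM_all hφ hc
      obtain ⟨x, hx⟩ := minus_FM hh hK
      refine ⟨x, ?_⟩
      rw [hs x]
      linarith

end Pool.Agent.Results.MP_8e561c_gt.ScalarSignFails
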